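import Pool.Agent.H197.HLQ.MainQ

/-!
# Half-lacunary Fourier series: a power of the logarithm is integrable

The circle is `AddCircle (1 : ℝ)` with its normalised Haar measure.  The negative frequencies lie in
a sequence `n k` of negative integers with `liminf n (k + 1) / n k > 1`, the nonnegative frequencies
are unrestricted, and the series are assumed to converge in `L²`.  If the sum `g = g₁ + g₂` is not
the zero element of `L²` then `g` vanishes only on a null set and `log |g|` lies in `L ^ p` of the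
circle for some `p > 0`.
-/

namespace Pool.Agent.Results.MP_5bfbcb_an.LogIntegrability

open MeasureTheory AddCircle

/-- Every nonzero half-lacunary Fourier series `g` is almost everywhere nonzero and satisfies
`log |g| ∈ L ^ p` for some `p > 0`. -/
theorem result (n : ℕ → ℤ) (hneg : ∀ k, n k < 0)
    (hlac : 1 < Filter.liminf
      (fun k => (((n (k + 1) : ℝ) / (n k : ℝ) : ℝ) : EReal)) Filter.atTop)
    (a : ℤ → ℂ) (g₁ g₂ : Lp ℂ 2 (haarAddCircle : Measure (AddCircle (1 : ℝ))))
    (h₁ : HasSum (fun k => a (n k) • fourierLp 2 (n k)) g₁)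
    (h₂ : HasSum (fun j : ℕ => a (j : ℤ) • fourierLp 2 (j : ℤ)) g₂) (hg : g₁ + g₂ ≠ 0) :
    (∀ᵐ θ : AddCircle (1 : ℝ) ∂haarAddCircle, (g₁ + g₂ : Lp ℂ 2 haarAddCircle) θ ≠ 0) ∧
      ∃ p : ℝ, 0 < p ∧ MemLp (fun θ : AddCircle (1 : ℝ) =>
        Real.log ‖(g₁ + g₂ : Lp ℂ 2 haarAddCircle) θ‖) (ENNReal.ofReal p) haarAddCircle :=
  Pool.Agent.H197.HLQ.main_log n hneg hlac a g₁ g₂ h₁ h₂ hg

end Pool.Agent.Results.MP_5bfbcb_an.LogIntegrability
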